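import Mathlib
import Pool.Agent.Lib.H22T.T7c

/-!
# Closures of rational subgroups of tori: ranks at the split places

`T = Spec A` is a torus over `ℚ`, `L` is a free abelian subgroup of rank `m` of `T(ℚ)`; `d(p)` is
defined at the primes `p` for which the closure of `L` in `T(ℚ_p)` is compact (it contains
`ℤ_p ^ d(p)` with finite index), and `ℓ(p)`, `ℓ(∞)` are the topological ranks of the closures of `L`
in `T(ℚ_p)` and `T(ℝ)`.  The question is whether `d(p) = d` for all these `p` implies `ℓ(p) ≥ d` for
all `p ≤ ∞` at which `T` is split.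

Let `T` be split at `p` and `v(p)` the rank of the group of the vectors of the valuations of the
characters of `T` over `ℚ_p` at the elements of `L` (so the closure is compact if and only if
`v(p) = 0`), and let `L(p)₀` be the subgroup of the elements with trivial valuations; it has rank
`m - v(p)`.  Let `d` be the common value of the `d(q)`, or the value of `d(q)` at one prime `q` at
which `T` is split.  Then `d ≤ m`, `d ≤ dim T` and for all `p` at which `T` is split
* `ℓ(p) ≥ min (m, v(p) + 1)`;
* `ℓ(p) ≥ v(p) + r` if the matrix of the logarithms of the values of the characters at `L(p)₀`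
  contains a block triangular system of weight `r`, with blocks of size `1 × 1` (weight 1), `3 × 2`
  or `2 × 3` with independent rows and columns (weight 2), and square blocks with entries in a group
  of rank two and nonsingular pencil of exponents (weight = size), see `BlockRank`;
* `ℓ(p) ≥ min (d, v(p) + 2)` if `m ≥ v(p) + 3`, and also if `m ≤ v(p) + 2` unless `L(p)₀` lies, up to
  torsion, in a subtorus of dimension at most two of `T` over `ℚ_p`;
* `ℓ(p) ≥ d` if the values of the characters at the elements of `L(p)₀` generate a group of rank at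
  most two; this is so at all places with non-compact closure if the values in `ℚ̄` of the characters
  at the elements of `L` generate a group of rank at most three.
If `T` is split over `ℝ` then `ℓ(∞) ≥ min (d, 3)`, `ℓ(∞) ≥ min (m, r + 1)` if the values of the
characters at `L` contain a block triangular system of weight `r`, and `ℓ(∞) ≥ min (m, d + 1)` if the
values of the characters at the elements of `L` generate a group of rank at most two.

So the answer to the question is yes for all tori at `∞` if `d ≤ 3`, and at the finite places at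
which `T` is split if `d ≤ 2`, if `d ≤ v(p) + 1`, if `d ≤ v(p) + 2` and `d < m`, and if
`d ≤ v(p) + 2` and `L(p)₀` does not lie in a subtorus of dimension at most two or has a block
triangular system of weight two, for instance if some character which is not trivial on `L(p)₀` has a
root of unity as its value at an element `≠ 1` of `L(p)₀`.  In the remaining case `m = d = v(p) + 2`
the group `L(p)₀` of rank two lies in a two-dimensional torus, and the question is whether the
determinant of its four `p`-adic logarithms vanishes (exactly the situation of the four exponentials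
conjecture).  For all `d` the answer is yes if `d ≤ v(p) + r` with `r` as above, `d ≤ r + 1` at `∞`;
it is yes at all places at which `T` is split if the values of the characters generate a group of
rank at most two, and at all finite ones if they generate a group of rank at most three.

Proof.  Let `E` be the subfield of `ℚ̄` generated by the values at `T(ℚ)` of a basis of the characters
of `T` over `ℚ̄`.  It is a number field and these values define an injective homomorphism
`c : T(ℚ) → (Eˣ) ^ n`.  At a place at which `T` is split the characters of `T` over `ℚ_p` are already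
defined over `ℚ̄ ∩ ℚ_p`: there is an embedding `σ : E → ℚ_p` such that the values `σ(c(x))` are values
of a basis of the characters over `ℚ_p`.  The field of definition of the characters embeds into `ℚ_q`
for infinitely many `q`, and at a large such `q` the closure is compact and `d(q)` is at most the
rank of the `q`-adic logarithms of `c(L)`.  Then the theorems of six exponentials and of Gelfond and
Schneider (real and `p`-adic, for values in a number field), applied to the matrices of logarithms,
give the bounds.  The theorems used are proved here (`Pool/Agent/Lib/H22T`,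
`Pool/Agent/Lib/H22F301`: interpolation determinants).
-/

namespace Pool.Agent.Results.MP_f301bd_nt.AllTori

open Pool.Agent.Lib.H22T

variable {A : Type*} [CommRing A] [HopfAlgebra ℚ A] [Coalgebra.IsCocomm ℚ A]

/-- Let `T = Spec A` be a torus of dimension `n` over `ℚ` and `L` a free abelian subgroup of rank `m`
of `T(ℚ)`.
1. The closure of `L` in `T(ℚ_p)` is compact for all large `p`.
2. If it contains `ℤ_p ^ d` with finite index, then `d ≤ m` and `ℓ(p) = d`.
3. If `T` is split at the prime `p`: the closure is compact if and only if `v(p) = 0`;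
   `ℓ(p) ≥ min (m, v(p) + 1)`, and `ℓ(p) ≥ v(p) + r` if the values of the characters at `L(p)₀`
   contain a block triangular system of weight `r`; here `v(p)` is `logRank e L`, the rank of the
   valuation vectors of `L`.
4. If `T` is split over `ℝ`: `ℓ(∞) ≥ min (m, r + 1)`, `r` the rank of the logarithmic vectors of `L`,
   and `r ≥ 1` if `m ≥ 1`; the same bound holds if `r` is the weight of a block triangular system.
5. Let `d` be the common value of the `d(p)`, or the value of `d(q)` at one prime `q` at which `T` is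
   split.  Then `d ≤ m`, `d ≤ n`, and at each prime `p` at which `T` is split
   `ℓ(p) ≥ min (d, v(p) + 2)` if `m ≥ v(p) + 3` or `L(p)₀` does not lie in a plane, `ℓ(p) ≥ d` if
   the values of the characters at `L(p)₀` generate a group of rank at most two, in particular if
   `v(p) ≠ 0` and the values in `ℚ̄` at `L` generate a group of rank at most three.  If `T` is split
   over `ℝ`, then `ℓ(∞) ≥ min (d, 3)`, and `ℓ(∞) ≥ min (m, d + 1)` if the values in `ℚ̄` of the
   characters at `L` generate a group of rank at most two.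
6. If `d(p) = d` at each prime `p` with compact closure, then `ℓ(p) ≥ d` at each prime `p` at which
   `T` is split and one of the six stated conditions holds, and `ℓ(∞) ≥ d` if `T` is split over `ℝ`
   and `d ≤ 3` or `d ≤ r + 1`, `r` the weight of a block triangular system, or the values in `ℚ̄` of
   the characters at `L` generate a group of rank at most two. -/
theorem result [Algebra.FiniteType ℚ A] {n : ℕ} (e₀ : Splitting A (AlgebraicClosure ℚ) n)
    (L : Subgroup (Pt A ℚ)) (m : ℕ) (hL : FreeOfRank L m) :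
    (∃ N : ℕ, ∀ (p : ℕ) [Fact p.Prime], N < p → CompactAt p L) ∧
    (∀ (p : ℕ) [Fact p.Prime] (d : ℕ), RankAt p L d → d ≤ m ∧ ell ℚ_[p] L = d) ∧
    (∀ (p : ℕ) [Fact p.Prime] (k : ℕ) (e : Splitting A ℚ_[p] k),
      (CompactAt p L ↔ logRank e L = 0) ∧
      ((min m (logRank e L + 1) : ℕ) : ℕ∞) ≤ ell ℚ_[p] L ∧
      ∀ r : ℕ, BlockRank (fun x z => chi e z x) (unitPart e L) Set.univ r →
        ((logRank e L + r : ℕ) : ℕ∞) ≤ ell ℚ_[p] L) ∧
    (∀ (k : ℕ) (e : Splitting A ℝ k),
      ((min m (logRank e L + 1) : ℕ) : ℕ∞) ≤ ell ℝ L ∧ (1 ≤ m → 1 ≤ logRank e L) ∧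
      ∀ r : ℕ, BlockRank (fun x z => chi e z x) (L : Set (Pt A ℚ)) Set.univ r →
        ((min m (r + 1) : ℕ) : ℕ∞) ≤ ell ℝ L) ∧
    (∀ d : ℕ, (CommonRank L d ∨
        ∃ (q : ℕ) (_ : Fact q.Prime), IsSplitAt A ℚ_[q] ∧ RankAt q L d) →
      d ≤ m ∧ d ≤ n ∧
      (∀ (p : ℕ) [Fact p.Prime] (k : ℕ) (e : Splitting A ℚ_[p] k),
        ((logRank e L + 3 ≤ m ∨ ¬ UnitsInPlane e L) →
          ((min d (logRank e L + 2) : ℕ) : ℕ∞) ≤ ell ℚ_[p] L) ∧
        (RankLE (charValues e (unitPart e L)) 2 → (d : ℕ∞) ≤ ell ℚ_[p] L) ∧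
        (RankLE (charValuesBar e₀ (L : Set (Pt A ℚ))) 3 → logRank e L ≠ 0 →
          (d : ℕ∞) ≤ ell ℚ_[p] L)) ∧
      (IsSplitAt A ℝ → ((min d 3 : ℕ) : ℕ∞) ≤ ell ℝ L ∧
        (RankLE (charValuesBar e₀ (L : Set (Pt A ℚ))) 2 →
          ((min m (d + 1) : ℕ) : ℕ∞) ≤ ell ℝ L))) ∧
    (∀ d : ℕ, CommonRank L d →
      (∀ (p : ℕ) [Fact p.Prime] (k : ℕ) (e : Splitting A ℚ_[p] k),
        (d ≤ 2 ∨ d ≤ logRank e L + 1 ∨ (d ≤ logRank e L + 2 ∧ (d < m ∨ ¬ UnitsInPlane e L)) ∨
          (∃ r, d ≤ logRank e L + r ∧
            BlockRank (fun x z => chi e z x) (unitPart e L) Set.univ r) ∨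
          RankLE (charValues e (unitPart e L)) 2 ∨
          RankLE (charValuesBar e₀ (L : Set (Pt A ℚ))) 3) → (d : ℕ∞) ≤ ell ℚ_[p] L) ∧
      (∀ (k : ℕ) (e : Splitting A ℝ k),
        (d ≤ 3 ∨ (∃ r, d ≤ r + 1 ∧
            BlockRank (fun x z => chi e z x) (L : Set (Pt A ℚ)) Set.univ r) ∨
          RankLE (charValuesBar e₀ (L : Set (Pt A ℚ))) 2) → (d : ℕ∞) ≤ ell ℝ L)) := by
  obtain ⟨hC, hZ, hP, hR, -⟩ := base_result ⟨n, ⟨e₀⟩⟩ L m hL
  obtain ⟨E, hfin, hEdef, c, hE, hinj, hc, hq⟩ := exists_data e₀
  have hsrc : ∀ d : ℕ, (CommonRank L d ∨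
      ∃ (q : ℕ) (_ : Fact q.Prime), IsSplitAt A ℚ_[q] ∧ RankAt q L d) →
      d ≤ m ∧ LogRankAt c L d := by
    rintro d (hcom | ⟨q, hqp, ⟨k, ⟨e⟩⟩, hd⟩)
    · obtain ⟨N, hN⟩ := hC
      obtain ⟨q, hqp, τ, Θ, hNq, hΘ1, hΘ2, hΘ3⟩ := hq N
      have hd := hcom q (hN q hNq)
      exact ⟨(hZ q d hd).1, logRankAt_of_theta c τ Θ hΘ1 hΘ2 hΘ3 hd⟩
    · obtain ⟨τ, Θ, M, w, hΘ, hσ, -, hM⟩ := exists_theta_of_splitting e₀ ℚ_[q] e E hEdef
      refine ⟨(hZ q d hd).1, logRankAt_of_theta c τ Θ hΘ (theta_injective e Θ M hM) ?_ hd⟩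
      intro x j
      rw [hσ x j (hE x j), hc]
  have hmain : ∀ d : ℕ, (CommonRank L d ∨
        ∃ (q : ℕ) (_ : Fact q.Prime), IsSplitAt A ℚ_[q] ∧ RankAt q L d) →
      d ≤ m ∧ d ≤ n ∧
      (∀ (p : ℕ) [Fact p.Prime] (k : ℕ) (e : Splitting A ℚ_[p] k),
        ((logRank e L + 3 ≤ m ∨ ¬ UnitsInPlane e L) →
          ((min d (logRank e L + 2) : ℕ) : ℕ∞) ≤ ell ℚ_[p] L) ∧
        (RankLE (charValues e (unitPart e L)) 2 → (d : ℕ∞) ≤ ell ℚ_[p] L) ∧
        (RankLE (charValuesBar e₀ (L : Set (Pt A ℚ))) 3 → logRank e L ≠ 0 →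
          (d : ℕ∞) ≤ ell ℚ_[p] L)) ∧
      (IsSplitAt A ℝ → ((min d 3 : ℕ) : ℕ∞) ≤ ell ℝ L ∧
        (RankLE (charValuesBar e₀ (L : Set (Pt A ℚ))) 2 →
          ((min m (d + 1) : ℕ) : ℕ∞) ≤ ell ℝ L)) := by
    intro d hd
    obtain ⟨hdm, hlr⟩ := hsrc d hd
    refine ⟨hdm, logRankAt_le hlr, fun p hp k e => ?_, ?_⟩
    · obtain ⟨κ, hκ, h3⟩ := finite_place e₀ E hEdef c hE hinj hc hL e
      obtain ⟨h4, h5, h5'⟩ := h3 d hlr
      refine ⟨fun h => le_trans ?_ hκ, fun h => le_trans ?_ hκ, fun h h' => le_trans ?_ hκ⟩
      · have := h4 h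
        have h6 : min d (logRank e L + 2) ≤ κ := by omega
        exact_mod_cast h6
      · exact_mod_cast h5 h
      · exact_mod_cast h5' h h'
    · rintro ⟨k, ⟨e⟩⟩
      exact ⟨real_place e₀ E hEdef c hE hinj hc hL e hdm hlr,
        real_place_two e₀ E hEdef c hE hinj hc hL e hlr⟩
  have hBp : ∀ (p : ℕ) [Fact p.Prime] (k : ℕ) (e : Splitting A ℚ_[p] k) (r : ℕ),
      BlockRank (fun x z => chi e z x) (unitPart e L) Set.univ r →
        ((logRank e L + r : ℕ) : ℕ∞) ≤ ell ℚ_[p] L := fun p hp k e r h =>
    finite_place_block e₀ E hEdef c hE hinj hc hL e h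
  have hBr : ∀ (k : ℕ) (e : Splitting A ℝ k) (r : ℕ),
      BlockRank (fun x z => chi e z x) (L : Set (Pt A ℚ)) Set.univ r →
        ((min m (r + 1) : ℕ) : ℕ∞) ≤ ell ℝ L := fun k e r h =>
    real_place_block e₀ E hEdef c hE hc hL e h
  refine ⟨hC, hZ, fun p hp k e => ⟨compactAt_iff e L, (hP p k e).1, hBp p k e⟩,
    fun k e => ⟨(hR k e).1, (hR k e).2, hBr k e⟩, hmain, fun d hcom => ?_⟩
  obtain ⟨hdm, -, h3, h4⟩ := hmain d (Or.inl hcom)
  refine ⟨fun p hp k e hcase => ?_, fun k e hcase => ?_⟩
  · obtain ⟨h5, h6, h7⟩ := h3 p k e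
    have h8 := (hP p k e).1
    by_cases hc0 : CompactAt p L
    · exact (hZ p d (hcom p hc0)).2.ge
    · have hv : logRank e L ≠ 0 := fun h => hc0 ((compactAt_iff e L).2 h)
      rcases hcase with h | h | ⟨h, h'⟩ | ⟨r, h, h'⟩ | h | h
      · refine le_trans ?_ h8
        have : d ≤ min m (logRank e L + 1) := by omega
        exact_mod_cast this
      · refine le_trans ?_ h8
        have : d ≤ min m (logRank e L + 1) := le_min hdm h
        exact_mod_cast this
      · rcases Nat.lt_or_ge (logRank e L + 1) d with h9 | h9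
        · have e1 : min d (logRank e L + 2) = d := by omega
          have := h5 (h'.imp_left fun h10 => by omega)
          rwa [e1] at this
        · refine le_trans ?_ h8
          have : d ≤ min m (logRank e L + 1) := le_min hdm h9
          exact_mod_cast this
      · exact le_trans (by exact_mod_cast h) (hBp p k e r h')
      · exact h6 h
      · exact h7 h hv
  · obtain ⟨h5, h6⟩ := h4 ⟨k, ⟨e⟩⟩
    rcases hcase with h | ⟨r, h, h'⟩ | h
    · have e1 : min d 3 = d := by omega
      rwa [e1] at h5
    · refine le_trans ?_ (hBr k e r h')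
      have : d ≤ min m (r + 1) := le_min hdm h
      exact_mod_cast this
    · refine le_trans ?_ (h6 h)
      have : d ≤ min m (d + 1) := by omega
      exact_mod_cast this

end Pool.Agent.Results.MP_f301bd_nt.AllTori
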