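import Mathlib
import Pool.Agent.Lib.H22F301.Split
import Pool.Agent.Lib.H22F301.Struct
import Pool.Agent.Lib.H22F301.PGS3
import Pool.Agent.Lib.H22F301.GS4
import Pool.Agent.Lib.H22F301.Exist

/-!
# Closures of rational subgroups of split tori: coordinates in a group of rank two

`T = 𝔾_m ^ n` over `ℚ` and `L` is a free abelian subgroup of rank `m` of `T(ℚ) = (ℚˣ) ^ n`; `d(p)`
is defined at the primes `p` for which the closure of `L` in `T(ℚ_p)` is compact (it contains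
`ℤ_p ^ d(p)` with finite index), and `ℓ(p)`, `ℓ(∞)` are the topological ranks of the closures of `L`
in `T(ℚ_p)` and `T(ℝ)`.  The question is whether `d(p) = d` for all these `p` implies `ℓ(p) ≥ d` for
all `p ≤ ∞`; the conjecture behind it says that `d(p)` is the structural rank of `log L`.

We prove both if the coordinates of the elements of `L` are of the form `± g₁ ^ a g₂ ^ b` with
two multiplicatively independent rational numbers `g₁`, `g₂`.  Let `s` be the structural rank of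
`log L`.  Then `d(p) = ℓ(p) = s` at each prime with compact closure, `ℓ(p) = m ≥ s` at all other
primes, and `min (m, s + 1) ≤ ℓ(∞)`.

Proof: the logarithms of the coordinates of the elements of a basis of `L` are the entries of the
matrix `A log g₁ + B log g₂`, `A`, `B` integer matrices.  Its rank is that of the generic
member of the pencil as soon as `log g₂ / log g₁` is transcendental, which is the theorem of Gelfond
and Schneider in the real case and Mahler's theorem in the `p`-adic case.  Both are proved here for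
rational `g₁`, `g₂` (interpolation determinants: `Pool/Agent/Lib/H22F301`, `GS*` and `PGS*`).  If
`g₁` or `g₂` is not a unit at `p`, the valuations and the logarithms of a basis are linearly
independent vectors, so that `ℓ(p) = m`.
-/

namespace Pool.Agent.Results.MP_f301bd_nt.TwoGenerators

open Pool.Agent.Lib.H22F301

/-- The coordinates of the elements of `L` are of the form `± g₁ ^ a g₂ ^ b`, with
multiplicatively independent rational numbers `g₁`, `g₂`. -/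
def TwoGenerated {n : ℕ} (L : Subgroup (Fin n → ℚˣ)) : Prop :=
  ∃ g₁ g₂ : ℚˣ, (∀ a b : ℤ, g₁ ^ a * g₂ ^ b = 1 → a = 0 ∧ b = 0) ∧
    ∀ x ∈ L, ∀ i, ∃ a b : ℤ, x i = g₁ ^ a * g₂ ^ b ∨ x i = -(g₁ ^ a * g₂ ^ b)

/-- `s` is the structural rank of the logarithms of `L`: the greatest dimension of the span of the
vectors `(f x₁, …, f x_n)`, `x ∈ L`, for the homomorphisms `f : ℚˣ → ℚ`. -/
def StructuralRank {n : ℕ} (L : Subgroup (Fin n → ℚˣ)) (s : ℕ) : Prop :=
  IsGreatest {r : ℕ | ∃ f : ℚˣ →* Multiplicative ℚ, r = Module.finrank ℚ (Submodule.span ℚ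
    ((fun (x : Fin n → ℚˣ) (i : Fin n) => Multiplicative.toAdd (f (x i))) ''
      (L : Set (Fin n → ℚˣ))))} s

section Two

variable {n : ℕ}

/-- Exponents of the coordinates of free generators. -/
theorem exists_exponents {L : Subgroup (Fin n → ℚˣ)} {m : ℕ} (hL : FreeOfRank L m) {g₁ g₂ : ℚˣ}
    (h : ∀ x ∈ L, ∀ i, ∃ a b : ℤ, x i = g₁ ^ a * g₂ ^ b ∨ x i = -(g₁ ^ a * g₂ ^ b)) :
    ∃ (f : Fin m → Fin n → ℚˣ) (A B : Fin m → Fin n → ℤ), (∀ j, f j ∈ L) ∧
      (∀ x, x ∈ L ↔ ∃ c : Fin m → ℤ, x = ∏ j, f j ^ c j) ∧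
      (∀ j i, (f j i) ^ 2 = (g₁ ^ A j i * g₂ ^ B j i) ^ 2) ∧
      (∀ c : Fin m → ℤ, ∑ j, c j • A j = 0 → ∑ j, c j • B j = 0 → c = 0) := by
  obtain ⟨f, hf, hf1⟩ := exists_basis hL
  have hfL : ∀ j, f j ∈ L := by
    intro j
    rw [hf]
    refine ⟨Pi.single j 1, ?_⟩
    rw [Finset.prod_eq_single j]
    · simp
    · intro k _ hk
      simp [hk]
    · simp
  choose A B hAB using fun j i => h (f j) (hfL j) i
  have h2 : ∀ j i, (f j i) ^ 2 = (g₁ ^ A j i * g₂ ^ B j i) ^ 2 := by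
    intro j i
    rcases hAB j i with h | h
    · rw [h]
    · rw [h, neg_sq]
  refine ⟨f, A, B, hfL, hf, h2, ?_⟩
  intro c hA hB
  have h3 : ∏ j, f j ^ (2 * c j) = 1 := by
    funext i
    rw [Finset.prod_apply]
    have h4 : ∀ j, (f j ^ (2 * c j)) i = (g₁ ^ (c j * A j i)) ^ 2 * (g₂ ^ (c j * B j i)) ^ 2 := by
      intro j
      rw [Pi.pow_apply, zpow_mul]
      have e1 : (f j i) ^ (2 : ℤ) = (g₁ ^ A j i * g₂ ^ B j i) ^ 2 := by
        rw [← h2]; norm_cast
      rw [e1, mul_pow, mul_zpow, ← zpow_natCast, ← zpow_natCast, ← zpow_natCast, ← zpow_natCast,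
        ← zpow_mul, ← zpow_mul, ← zpow_mul, ← zpow_mul, ← zpow_mul, ← zpow_mul]
      congr 2 <;> ring
    simp only [h4]
    rw [Finset.prod_mul_distrib, Finset.prod_pow, Finset.prod_pow, prod_zpow_sum, prod_zpow_sum]
    have e1 := congrFun hA i
    have e2 := congrFun hB i
    simp only [Finset.sum_apply, Pi.smul_apply, smul_eq_mul, Pi.zero_apply] at e1 e2
    rw [e1, e2]
    simp
  have h4 := hf1 (fun j => 2 * c j) h3
  funext j
  have h5 := congrFun h4 j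
  simp only [Pi.zero_apply, mul_eq_zero, OfNat.ofNat_ne_zero, false_or] at h5
  exact h5

/-- The value of a homomorphism at a coordinate of a generator. -/
theorem hom_value {K 𝕜 : Type*} [Field K] [Algebra ℚ K] [Field 𝕜] [CharZero 𝕜]
    (f : Kˣ →* Multiplicative 𝕜) {x : Fin n → ℚˣ} {i : Fin n} {g₁ g₂ : ℚˣ} {a b : ℤ}
    (h : (x i) ^ 2 = (g₁ ^ a * g₂ ^ b) ^ 2) :
    Multiplicative.toAdd (f (incl K n x i)) =
      (a : 𝕜) * Multiplicative.toAdd (f (Units.map (algebraMap ℚ K).toMonoidHom g₁)) +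
      (b : 𝕜) * Multiplicative.toAdd (f (Units.map (algebraMap ℚ K).toMonoidHom g₂)) := by
  have h1 : (incl K n x i) ^ 2 = ((Units.map (algebraMap ℚ K).toMonoidHom g₁) ^ a *
      (Units.map (algebraMap ℚ K).toMonoidHom g₂) ^ b) ^ 2 := by
    show (Units.map (algebraMap ℚ K).toMonoidHom (x i)) ^ 2 = _
    rw [← map_pow, h, map_pow, map_mul, map_zpow, map_zpow]
  have h2 := congrArg (fun y => Multiplicative.toAdd (f y)) h1
  simp only [map_pow, map_mul, map_zpow, toAdd_pow, toAdd_mul, toAdd_zpow, smul_add] at h2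
  simp only [zsmul_eq_mul, nsmul_eq_mul] at h2
  have h3 : ((2 : ℕ) : 𝕜) ≠ 0 := by norm_num
  apply mul_left_cancel₀ h3
  rw [h2]
  ring
/-- The logarithms of the absolute values of multiplicatively independent rational numbers. -/
theorem abs_indep {g₁ g₂ : ℚˣ} (hind : ∀ a b : ℤ, g₁ ^ a * g₂ ^ b = 1 → a = 0 ∧ b = 0) (k l : ℤ)
    (h : |(g₁ : ℚ)| ^ k * |(g₂ : ℚ)| ^ l = 1) : k = 0 ∧ l = 0 := by
  have h1 : |((g₁ ^ k * g₂ ^ l : ℚˣ) : ℚ)| = 1 := by
    rw [Units.val_mul, abs_mul, Units.val_zpow_eq_zpow_val, Units.val_zpow_eq_zpow_val, abs_zpow,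
      abs_zpow]
    exact h
  have h2 : g₁ ^ (2 * k) * g₂ ^ (2 * l) = 1 := by
    have h3 : (g₁ ^ k * g₂ ^ l) ^ 2 = 1 := by
      apply Units.ext
      rw [Units.val_pow_eq_pow_val, ← sq_abs, h1, one_pow, Units.val_one]
    rw [mul_comm 2 k, mul_comm 2 l, zpow_mul, zpow_mul, ← mul_zpow]
    exact_mod_cast h3
  have h3 := hind _ _ h2
  omega
theorem spanRank_eq {K 𝕜 : Type*} [Field K] [Algebra ℚ K] [Field 𝕜] [CharZero 𝕜]
    (f : Kˣ →* Multiplicative 𝕜) {L : Subgroup (Fin n → ℚˣ)} {m : ℕ} {g : Fin m → Fin n → ℚˣ}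
    (hgL : ∀ j, g j ∈ L) (hg : ∀ x, x ∈ L ↔ ∃ c : Fin m → ℤ, x = ∏ j, g j ^ c j)
    {g₁ g₂ : ℚˣ} {A B : Fin m → Fin n → ℤ}
    (hAB : ∀ j i, (g j i) ^ 2 = (g₁ ^ A j i * g₂ ^ B j i) ^ 2) :
    spanRank f L = Module.finrank 𝕜 (Submodule.span 𝕜 (Set.range fun (j : Fin m) (i : Fin n) =>
      (A j i : 𝕜) * Multiplicative.toAdd (f (Units.map (algebraMap ℚ K).toMonoidHom g₁)) +
      (B j i : 𝕜) * Multiplicative.toAdd (f (Units.map (algebraMap ℚ K).toMonoidHom g₂)))) := by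
  have e1 : (fun j => Multiplicative.toAdd (coord f (incl K n (g j)))) =
      fun (j : Fin m) (i : Fin n) =>
        (A j i : 𝕜) * Multiplicative.toAdd (f (Units.map (algebraMap ℚ K).toMonoidHom g₁)) +
        (B j i : 𝕜) * Multiplicative.toAdd (f (Units.map (algebraMap ℚ K).toMonoidHom g₂)) := by
    funext j i
    exact hom_value f (hAB j i)
  rw [← e1]
  exact le_antisymm (finrank_le_range f hg) (finrank_range_le f hgL)

/-- The real rank is maximal. -/
theorem le_spanRank_real {𝕜 : Type*} [Field 𝕜] [CharZero 𝕜]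
    {L : Subgroup (Fin n → ℚˣ)} {m : ℕ} {g : Fin m → Fin n → ℚˣ}
    (hgL : ∀ j, g j ∈ L) (hg : ∀ x, x ∈ L ↔ ∃ c : Fin m → ℤ, x = ∏ j, g j ^ c j)
    {g₁ g₂ : ℚˣ} (hind : ∀ a b : ℤ, g₁ ^ a * g₂ ^ b = 1 → a = 0 ∧ b = 0)
    {A B : Fin m → Fin n → ℤ} (hAB : ∀ j i, (g j i) ^ 2 = (g₁ ^ A j i * g₂ ^ B j i) ^ 2)
    (l₁ l₂ : 𝕜) :
    Module.finrank 𝕜 (Submodule.span 𝕜 (Set.range fun (j : Fin m) (i : Fin n) =>
      (A j i : 𝕜) * l₁ + (B j i : 𝕜) * l₂)) ≤ spanRank logAbs L := by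
  rw [spanRank_eq logAbs hgL hg hAB]
  have e1 : ∀ g : ℚˣ, Multiplicative.toAdd (logAbs (Units.map (algebraMap ℚ ℝ).toMonoidHom g)) =
      Real.log ((|(g : ℚ)| : ℚ) : ℝ) := by
    intro g
    push_cast
    rfl
  have hpos1 : (0 : ℚ) < |(g₁ : ℚ)| := abs_pos.2 g₁.ne_zero
  have hpos2 : (0 : ℚ) < |(g₂ : ℚ)| := abs_pos.2 g₂.ne_zero
  rw [e1, e1]
  apply pencil_rank_le A B l₁ l₂
  · intro h0
    have := log_indep hpos1 hpos2 (abs_indep hind) 1 0 (by rw [h0]; simp)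
    exact one_ne_zero this.1
  · exact transcendental_log_div_log hpos1 hpos2 (abs_indep hind)

end Two

section Places

variable {n : ℕ}

/-- If `g₁` or `g₂` is not a unit at `p`, the vectors of the valuations and the logarithms are
linearly independent. -/
theorem linearIndependent_pair {p : ℕ} [hp : Fact p.Prime]
    {lg : ℚ_[p]ˣ →* Multiplicative ℚ_[p]} {N : ℕ} (hN : 0 < N)
    (hker : ∀ y : ℚ_[p]ˣ, ‖(y : ℚ_[p])‖ = 1 → Multiplicative.toAdd (lg y) = 0 → y ^ N = 1)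
    {m : ℕ} {f : Fin m → Fin n → ℚˣ} {g₁ g₂ : ℚˣ}
    (hind : ∀ a b : ℤ, g₁ ^ a * g₂ ^ b = 1 → a = 0 ∧ b = 0)
    {A B : Fin m → Fin n → ℤ} (hfAB : ∀ j i, (f j i) ^ 2 = (g₁ ^ A j i * g₂ ^ B j i) ^ 2)
    (hAB : ∀ c : Fin m → ℤ, ∑ j, c j • A j = 0 → ∑ j, c j • B j = 0 → c = 0)
    (hk : ¬ (‖((Units.map (algebraMap ℚ ℚ_[p]).toMonoidHom g₁ : ℚ_[p]ˣ) : ℚ_[p])‖ = 1 ∧
      ‖((Units.map (algebraMap ℚ ℚ_[p]).toMonoidHom g₂ : ℚ_[p]ˣ) : ℚ_[p])‖ = 1)) :
    LinearIndependent ℚ_[p] fun j : Fin m =>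
      Multiplicative.toAdd (pairHom lg n (incl ℚ_[p] n (f j))) := by
  set G₁ : ℚ_[p]ˣ := Units.map (algebraMap ℚ ℚ_[p]).toMonoidHom g₁ with hG₁
  set G₂ : ℚ_[p]ˣ := Units.map (algebraMap ℚ ℚ_[p]).toMonoidHom g₂ with hG₂
  set k₁ : ℤ := (G₁ : ℚ_[p]).valuation with hk₁
  set k₂ : ℤ := (G₂ : ℚ_[p]).valuation with hk₂
  set l₁ : ℚ_[p] := Multiplicative.toAdd (lg G₁) with hl₁
  set l₂ : ℚ_[p] := Multiplicative.toAdd (lg G₂) with hl₂
  rw [norm_eq_one_of_valuation G₁.ne_zero, norm_eq_one_of_valuation G₂.ne_zero] at hk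
  have hD : (k₁ : ℚ_[p]) * l₂ - (k₂ : ℚ_[p]) * l₁ ≠ 0 := by
    intro h0
    set y : ℚ_[p]ˣ := G₂ ^ k₁ * G₁ ^ (-k₂) with hy
    have e1 : Multiplicative.toAdd (lg y) = (k₁ : ℚ_[p]) * l₂ - (k₂ : ℚ_[p]) * l₁ := by
      rw [hy, map_mul, map_zpow, map_zpow, toAdd_mul, toAdd_zpow, toAdd_zpow, zsmul_eq_mul,
        zsmul_eq_mul]
      push_cast
      ring
    have e2 : ‖(y : ℚ_[p])‖ = 1 := by
      rw [norm_eq_one_of_valuation y.ne_zero]
      have h1 : Multiplicative.toAdd (valHom p y) = 0 := by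
        rw [hy, map_mul, map_zpow, map_zpow, toAdd_mul, toAdd_zpow, toAdd_zpow, zsmul_eq_mul,
          zsmul_eq_mul]
        show (k₁ : ℚ_[p]) * ((k₂ : ℤ) : ℚ_[p]) + ((-k₂ : ℤ) : ℚ_[p]) * ((k₁ : ℤ) : ℚ_[p]) = 0
        push_cast
        ring
      have h2 : (((y : ℚ_[p]).valuation : ℤ) : ℚ_[p]) = 0 := h1
      exact_mod_cast h2
    have h3 := hker y e2 (by rw [e1, h0])
    have h4 : (g₂ ^ k₁ * g₁ ^ (-k₂)) ^ N = 1 := by
      have hinj : Function.Injective (Units.map (algebraMap ℚ ℚ_[p]).toMonoidHom) :=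
        Units.map_injective (algebraMap ℚ ℚ_[p]).injective
      apply hinj
      rw [map_one, map_pow, map_mul, map_zpow, map_zpow]
      exact h3
    have h5 : g₁ ^ (-k₂ * N) * g₂ ^ (k₁ * N) = 1 := by
      rw [zpow_mul, zpow_mul, ← mul_zpow, zpow_natCast, mul_comm]
      exact h4
    have h6 := hind _ _ h5
    have hN' : (N : ℤ) ≠ 0 := by exact_mod_cast hN.ne'
    apply hk
    constructor
    · exact (mul_eq_zero.1 h6.2).resolve_right hN'
    · have := (mul_eq_zero.1 h6.1).resolve_right hN'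
      omega
  have hW := linearIndependent_intCast (𝕜 := ℚ_[p]) (n := n + n)
    (fun j => Fin.append (A j) (B j)) (by
      intro c hc
      apply hAB c
      · funext i
        have := congrFun hc (Fin.castAdd n i)
        simp only [Finset.sum_apply, Pi.smul_apply, Fin.append_left, Pi.zero_apply] at this ⊢
        exact this
      · funext i
        have := congrFun hc (Fin.natAdd n i)
        simp only [Finset.sum_apply, Pi.smul_apply, Fin.append_right, Pi.zero_apply] at this ⊢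
        exact this)
  rw [Fintype.linearIndependent_iff] at hW ⊢
  intro c hc
  apply hW c
  have hval : ∀ j i, Multiplicative.toAdd (pairHom lg n (incl ℚ_[p] n (f j))) (Fin.castAdd n i) =
      (A j i : ℚ_[p]) * k₁ + (B j i : ℚ_[p]) * k₂ := by
    intro j i
    have h1 := hom_value (K := ℚ_[p]) (valHom p) (hfAB j i)
    show Fin.append _ _ (Fin.castAdd n i) = _
    rw [Fin.append_left]
    exact h1
  have hlog : ∀ j i, Multiplicative.toAdd (pairHom lg n (incl ℚ_[p] n (f j))) (Fin.natAdd n i) =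
      (A j i : ℚ_[p]) * l₁ + (B j i : ℚ_[p]) * l₂ := by
    intro j i
    have h1 := hom_value (K := ℚ_[p]) lg (hfAB j i)
    show Fin.append _ _ (Fin.natAdd n i) = _
    rw [Fin.append_right]
    exact h1
  have ha : ∀ i, (∑ j, c j * (A j i : ℚ_[p])) = 0 ∧ (∑ j, c j * (B j i : ℚ_[p])) = 0 := by
    intro i
    have h1 := congrFun hc (Fin.castAdd n i)
    have h2 := congrFun hc (Fin.natAdd n i)
    simp only [Finset.sum_apply, Pi.smul_apply, smul_eq_mul, hval, hlog, Pi.zero_apply, mul_add,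
      Finset.sum_add_distrib, ← mul_assoc, ← Finset.sum_mul] at h1 h2
    constructor
    · apply (mul_eq_zero.1 _).resolve_right hD
      linear_combination l₂ * h1 - (k₂ : ℚ_[p]) * h2
    · apply (mul_eq_zero.1 _).resolve_right hD
      linear_combination (k₁ : ℚ_[p]) * h2 - l₁ * h1
  funext i
  simp only [Finset.sum_apply, Pi.smul_apply, smul_eq_mul, Pi.zero_apply]
  refine Fin.addCases (fun i => ?_) (fun i => ?_) i
  · simp only [Fin.append_left]
    exact (ha i).1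
  · simp only [Fin.append_right]
    exact (ha i).2

/-- If the closure is not compact then `g₁` or `g₂` is not a unit. -/
theorem not_units {L : Subgroup (Fin n → ℚˣ)} {g₁ g₂ : ℚˣ}
    (hg : ∀ x ∈ L, ∀ i, ∃ a b : ℤ, x i = g₁ ^ a * g₂ ^ b ∨ x i = -(g₁ ^ a * g₂ ^ b))
    {p : ℕ} [hp : Fact p.Prime] (hc : ¬ CompactAt p L) :
    ¬ (‖((Units.map (algebraMap ℚ ℚ_[p]).toMonoidHom g₁ : ℚ_[p]ˣ) : ℚ_[p])‖ = 1 ∧
      ‖((Units.map (algebraMap ℚ ℚ_[p]).toMonoidHom g₂ : ℚ_[p]ˣ) : ℚ_[p])‖ = 1) := by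
  rw [norm_eq_one_of_valuation (Units.ne_zero _), norm_eq_one_of_valuation (Units.ne_zero _)]
  rintro ⟨h1, h2⟩
  apply hc
  apply compactAt_of_norm_one
  intro x hx i
  obtain ⟨a, b, hab⟩ := hg x hx i
  have hab2 : (x i) ^ 2 = (g₁ ^ a * g₂ ^ b) ^ 2 := by
    rcases hab with h | h
    · rw [h]
    · rw [h, neg_sq]
  have h3 := hom_value (K := ℚ_[p]) (valHom p) hab2
  have e1 : ∀ g : ℚˣ, Multiplicative.toAdd (valHom p (Units.map (algebraMap ℚ ℚ_[p]).toMonoidHom g))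
      = ((((Units.map (algebraMap ℚ ℚ_[p]).toMonoidHom g : ℚ_[p]ˣ) : ℚ_[p]).valuation : ℤ) :
        ℚ_[p]) := fun g => rfl
  rw [e1, e1, h1, h2, Int.cast_zero, mul_zero, mul_zero, add_zero] at h3
  rw [norm_eq_one_of_valuation (incl ℚ_[p] n x i).ne_zero]
  have h4 : (((incl ℚ_[p] n x i : ℚ_[p]ˣ) : ℚ_[p]).valuation : ℚ_[p]) = 0 := h3
  exact_mod_cast h4

/-- At a finite place with non-compact closure `ℓ(p) = m`. -/
theorem ell_padic_of_two {L : Subgroup (Fin n → ℚˣ)} {m : ℕ} (hL : FreeOfRank L m)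
    (h2 : TwoGenerated L) (p : ℕ) [hp : Fact p.Prime] (hc : ¬ CompactAt p L) :
    ell ℚ_[p] L = m := by
  apply le_antisymm (ell_le _ hL)
  obtain ⟨g₁, g₂, hind, hg⟩ := h2
  obtain ⟨f, A, B, hfL, hfgen, hfAB, hAB⟩ := exists_exponents hL hg
  obtain ⟨N, lg, hN, hlg, hker⟩ := exists_padicLog p
  have hu := linearIndependent_pair hN hker hind hfAB hAB (not_units hg hc)
  refine le_iInf₂ fun k hk' => ?_
  obtain ⟨F, H, hF, hH, -, hfin⟩ := hk'
  have h := finrank_span_le ((pairHom lg n).comp (closureAt ℚ_[p] L).subtype)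
    ((continuous_pairHom lg hlg).comp continuous_subtype_val) hF hH hfin
    (inClosure ℚ_[p] L : Set (closureAt ℚ_[p] L))
  have h3 : m ≤ Module.finrank ℚ_[p] (Submodule.span ℚ_[p] (Set.range fun j : Fin m =>
      Multiplicative.toAdd (pairHom lg n (incl ℚ_[p] n (f j))))) := by
    have := finrank_span_eq_card hu
    rw [Fintype.card_fin] at this
    exact this.ge
  have h4 : Module.finrank ℚ_[p] (Submodule.span ℚ_[p] (Set.range fun j : Fin m =>
      Multiplicative.toAdd (pairHom lg n (incl ℚ_[p] n (f j))))) ≤ k := by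
    refine le_trans ?_ h
    apply Submodule.finrank_mono
    apply Submodule.span_mono
    rintro _ ⟨j, rfl⟩
    exact ⟨⟨incl ℚ_[p] n (f j), map_le_closureAt ℚ_[p] L ⟨f j, hfL j, rfl⟩⟩, ⟨f j, hfL j, rfl⟩,
      rfl⟩
  exact_mod_cast h3.trans h4
/-- At a place with compact closure the rank of the logarithms is maximal. -/
theorem le_spanRank_padic {𝕜 : Type*} [Field 𝕜] [CharZero 𝕜] {p : ℕ} [hp : Fact p.Prime]
    {lg : ℚ_[p]ˣ →* Multiplicative ℚ_[p]} {N : ℕ} (hN : 0 < N)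
    (hlg : Continuous fun y => Multiplicative.toAdd (lg y))
    (hker : ∀ y : ℚ_[p]ˣ, ‖(y : ℚ_[p])‖ = 1 → Multiplicative.toAdd (lg y) = 0 → y ^ N = 1)
    {L : Subgroup (Fin n → ℚˣ)} (hc : CompactAt p L) {m : ℕ} {g : Fin m → Fin n → ℚˣ}
    (hgL : ∀ j, g j ∈ L) (hg : ∀ x, x ∈ L ↔ ∃ c : Fin m → ℤ, x = ∏ j, g j ^ c j)
    {g₁ g₂ : ℚˣ} (hind : ∀ a b : ℤ, g₁ ^ a * g₂ ^ b = 1 → a = 0 ∧ b = 0)
    {A B : Fin m → Fin n → ℤ} (hgAB : ∀ j i, (g j i) ^ 2 = (g₁ ^ A j i * g₂ ^ B j i) ^ 2)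
    (hAB : ∀ c : Fin m → ℤ, ∑ j, c j • A j = 0 → ∑ j, c j • B j = 0 → c = 0) (l₁ l₂ : 𝕜) :
    Module.finrank 𝕜 (Submodule.span 𝕜 (Set.range fun (j : Fin m) (i : Fin n) =>
      (A j i : 𝕜) * l₁ + (B j i : 𝕜) * l₂)) ≤ spanRank lg L := by
  by_cases hk : ‖((Units.map (algebraMap ℚ ℚ_[p]).toMonoidHom g₁ : ℚ_[p]ˣ) : ℚ_[p])‖ = 1 ∧
      ‖((Units.map (algebraMap ℚ ℚ_[p]).toMonoidHom g₂ : ℚ_[p]ˣ) : ℚ_[p])‖ = 1
  · rw [spanRank_eq lg hgL hg hgAB]
    obtain ⟨h1, h2⟩ := transcendental_lg hN hlg hker hind hk.1 hk.2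
    exact pencil_rank_le A B l₁ l₂ _ _ h1 h2
  · have hu := linearIndependent_pair hN hker hind hgAB hAB hk
    have h1 : Module.finrank 𝕜 (Submodule.span 𝕜 (Set.range fun (j : Fin m) (i : Fin n) =>
      (A j i : 𝕜) * l₁ + (B j i : 𝕜) * l₂)) ≤ m := by
      have := finrank_range_le_card (R := 𝕜) fun (j : Fin m) (i : Fin n) =>
        (A j i : 𝕜) * l₁ + (B j i : 𝕜) * l₂
      rwa [Fintype.card_fin] at this
    refine h1.trans ?_
    have hv : LinearIndependent ℚ_[p] fun j : Fin m =>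
        Multiplicative.toAdd (coord lg (incl ℚ_[p] n (g j))) := by
      rw [Fintype.linearIndependent_iff] at hu ⊢
      intro c hcs
      apply hu c
      funext i
      rw [Finset.sum_apply]
      refine Fin.addCases (fun i => ?_) (fun i => ?_) i
      · apply Finset.sum_eq_zero
        intro j _
        have h2 := norm_one_of_compactAt hc
          (map_le_closureAt ℚ_[p] L ⟨g j, hgL j, rfl⟩) i
        rw [norm_eq_one_of_valuation (Units.ne_zero _)] at h2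
        show c j * (Fin.append _ _ (Fin.castAdd n i)) = 0
        rw [Fin.append_left]
        have h3 : Multiplicative.toAdd (coord (valHom p) (incl ℚ_[p] n (g j))) i = 0 := by
          show ((((incl ℚ_[p] n (g j) i : ℚ_[p]ˣ) : ℚ_[p]).valuation : ℤ) : ℚ_[p]) = 0
          rw [h2, Int.cast_zero]
        rw [h3, mul_zero]
      · have h2 := congrFun hcs i
        rw [Finset.sum_apply] at h2
        rw [Pi.zero_apply] at h2 ⊢
        rw [← h2]
        refine Finset.sum_congr rfl fun j _ => ?_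
        show c j * (Fin.append _ _ (Fin.natAdd n i)) = c j * _
        rw [Fin.append_right]
    have h3 := finrank_span_eq_card hv
    rw [Fintype.card_fin] at h3
    rw [← h3]
    exact finrank_range_le lg hgL

/-- The ranks for homomorphisms to `ℚ`. -/
theorem rank_rat {L : Subgroup (Fin n → ℚˣ)} {m : ℕ} {g : Fin m → Fin n → ℚˣ}
    (hgL : ∀ j, g j ∈ L) (hg : ∀ x, x ∈ L ↔ ∃ c : Fin m → ℤ, x = ∏ j, g j ^ c j)
    {g₁ g₂ : ℚˣ} {A B : Fin m → Fin n → ℤ}
    (hAB : ∀ j i, (g j i) ^ 2 = (g₁ ^ A j i * g₂ ^ B j i) ^ 2) (f : ℚˣ →* Multiplicative ℚ) :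
    Module.finrank ℚ (Submodule.span ℚ
      ((fun (x : Fin n → ℚˣ) (i : Fin n) => Multiplicative.toAdd (f (x i))) ''
        (L : Set (Fin n → ℚˣ)))) =
    Module.finrank ℚ (Submodule.span ℚ (Set.range fun (j : Fin m) (i : Fin n) =>
      (A j i : ℚ) * Multiplicative.toAdd (f g₁) + (B j i : ℚ) * Multiplicative.toAdd (f g₂))) := by
  have hid : ∀ u : ℚˣ, Units.map (algebraMap ℚ ℚ).toMonoidHom u = u := fun u => Units.ext rfl
  have h1 := spanRank_eq (K := ℚ) f hgL hg hAB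
  rw [hid, hid] at h1
  rw [← h1, spanRank]
  congr 3

theorem structuralRank_of_compact {p : ℕ} [hp : Fact p.Prime]
    {lg : ℚ_[p]ˣ →* Multiplicative ℚ_[p]} {N : ℕ} (hN : 0 < N)
    (hlg : Continuous fun y => Multiplicative.toAdd (lg y))
    (hker : ∀ y : ℚ_[p]ˣ, ‖(y : ℚ_[p])‖ = 1 → Multiplicative.toAdd (lg y) = 0 → y ^ N = 1)
    {L : Subgroup (Fin n → ℚˣ)} (hc : CompactAt p L) {m : ℕ} {g : Fin m → Fin n → ℚˣ}
    (hgL : ∀ j, g j ∈ L) (hg : ∀ x, x ∈ L ↔ ∃ c : Fin m → ℤ, x = ∏ j, g j ^ c j)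
    {g₁ g₂ : ℚˣ} (hind : ∀ a b : ℤ, g₁ ^ a * g₂ ^ b = 1 → a = 0 ∧ b = 0)
    {A B : Fin m → Fin n → ℤ} (hgAB : ∀ j i, (g j i) ^ 2 = (g₁ ^ A j i * g₂ ^ B j i) ^ 2)
    (hAB : ∀ c : Fin m → ℤ, ∑ j, c j • A j = 0 → ∑ j, c j • B j = 0 → c = 0) :
    StructuralRank L (spanRank lg L) := by
  have hub : ∀ f : ℚˣ →* Multiplicative ℚ, Module.finrank ℚ (Submodule.span ℚ
      ((fun (x : Fin n → ℚˣ) (i : Fin n) => Multiplicative.toAdd (f (x i))) ''
        (L : Set (Fin n → ℚˣ)))) ≤ spanRank lg L := by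
    intro f
    rw [rank_rat hgL hg hgAB f]
    exact le_spanRank_padic hN hlg hker hc hgL hg hind hgAB hAB _ _
  constructor
  · obtain ⟨t, ht⟩ := exists_rat_rank A B
      (Multiplicative.toAdd (lg (Units.map (algebraMap ℚ ℚ_[p]).toMonoidHom g₁)))
      (Multiplicative.toAdd (lg (Units.map (algebraMap ℚ ℚ_[p]).toMonoidHom g₂)))
    rw [← spanRank_eq lg hgL hg hgAB] at ht
    obtain ⟨f, hf1, hf2⟩ := exists_hom hind 1 t
    refine ⟨f, le_antisymm ?_ (hub f)⟩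
    rw [rank_rat hgL hg hgAB f, hf1, hf2]
    exact ht
  · rintro _ ⟨f, rfl⟩
    exact hub f
/-- Let `L` be a free abelian subgroup of rank `m` of `T(ℚ) = (ℚˣ) ^ n`, `T = 𝔾_m ^ n`, whose
elements have coordinates `± g₁ ^ a g₂ ^ b`, `g₁`, `g₂` multiplicatively independent.  The closure of
`L` in `T(ℚ_p)` is compact for all large `p`.  Let `s` be the structural rank of `log L`.  Then
`s ≤ m`; `d(p) = ℓ(p) = s` for each `p` with compact closure; `ℓ(p) = m` for all other `p`;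
`min (m, s + 1) ≤ ℓ(∞)`.  If `d(p) = d` for all `p` with compact closure then `d = s`,
`d ≤ ℓ(p)` for all `p` and `d ≤ ℓ(∞)`. -/
theorem result (L : Subgroup (Fin n → ℚˣ)) (m : ℕ) (hL : FreeOfRank L m)
    (h2 : TwoGenerated L) :
    (∃ N : ℕ, ∀ (p : ℕ) [Fact p.Prime], N < p → CompactAt p L) ∧
    ∃ s : ℕ, s ≤ m ∧ StructuralRank L s ∧
      (∀ (p : ℕ) [Fact p.Prime], CompactAt p L → RankAt p L s ∧ ell ℚ_[p] L = s) ∧
      (∀ (p : ℕ) [Fact p.Prime], ¬ CompactAt p L → ell ℚ_[p] L = m) ∧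
      (min m (s + 1) : ℕ) ≤ ell ℝ L ∧
      (∀ d : ℕ, CommonRank L d → d = s ∧
        (∀ (p : ℕ) [Fact p.Prime], (d : ℕ∞) ≤ ell ℚ_[p] L) ∧ (d : ℕ∞) ≤ ell ℝ L) := by
  have hC := exists_compact hL
  refine ⟨hC, ?_⟩
  obtain ⟨g₁, g₂, hind, hg⟩ := h2
  obtain ⟨f, A, B, hfL, hfgen, hfAB, hAB⟩ := exists_exponents hL hg
  obtain ⟨N, hN⟩ := hC
  obtain ⟨q, hq1, hq2⟩ := Nat.exists_infinite_primes (N + 1)
  have hq : Fact q.Prime := ⟨hq2⟩
  have hcq := hN q (by omega)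
  obtain ⟨s, hs⟩ := exists_zpRank (closureAt ℚ_[q] L) hcq
  have hsq : RankAt q L s := hs
  -- the common value
  have hrank : ∀ (p : ℕ) [Fact p.Prime] (d : ℕ), CompactAt p L → RankAt p L d → d = s := by
    intro p hp d hcp hd
    obtain ⟨M, lg, hM, hlg, hker⟩ := exists_padicLog p
    obtain ⟨M', lg', hM', hlg', hker'⟩ := exists_padicLog q
    have e1 : spanRank lg L ≤ spanRank lg' L := by
      rw [spanRank_eq lg hfL hfgen hfAB]
      exact le_spanRank_padic hM' hlg' hker' hcq hfL hfgen hind hfAB hAB _ _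
    have e2 : spanRank lg' L ≤ spanRank lg L := by
      rw [spanRank_eq lg' hfL hfgen hfAB]
      exact le_spanRank_padic hM hlg hker hcp hfL hfgen hind hfAB hAB _ _
    have e3 : d ≤ spanRank lg L := rankAt_le_finrank lg hM hlg hker hd
    have e4 : s ≤ spanRank lg' L := rankAt_le_finrank lg' hM' hlg' hker' hsq
    have e5 := spanRank_le_of_rankAt hlg hd
    have e6 := spanRank_le_of_rankAt hlg' hsq
    omega
  have hcomp : ∀ (p : ℕ) [Fact p.Prime], CompactAt p L → RankAt p L s := by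
    intro p hp hcp
    obtain ⟨d, hd⟩ := exists_zpRank (closureAt ℚ_[p] L) hcp
    have hd' : RankAt p L d := hd
    rw [← hrank p d hcp hd']
    exact hd'
  have hsm : s ≤ m := rankAt_le hL hsq
  have hstr : StructuralRank L s := by
    obtain ⟨M', lg', hM', hlg', hker'⟩ := exists_padicLog q
    have e1 : s = spanRank lg' L := le_antisymm (rankAt_le_finrank lg' hM' hlg' hker' hsq)
      (spanRank_le_of_rankAt hlg' hsq)
    rw [e1]
    exact structuralRank_of_compact hM' hlg' hker' hcq hfL hfgen hind hfAB hAB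
  have hreal : (min m (s + 1) : ℕ) ≤ ell ℝ L := by
    refine le_trans ?_ (le_ell_real hL)
    obtain ⟨M', lg', hM', hlg', hker'⟩ := exists_padicLog q
    have e4 : s ≤ spanRank lg' L := rankAt_le_finrank lg' hM' hlg' hker' hsq
    have e5 : spanRank lg' L ≤ spanRank logAbs L := by
      rw [spanRank_eq lg' hfL hfgen hfAB]
      exact le_spanRank_real hfL hfgen hind hfAB _ _
    have e6 : spanRank logAbs L = Module.finrank ℝ (Submodule.span ℝ
      ((fun x => Multiplicative.toAdd (coord logAbs (incl ℝ n x))) '' (L : Set (Fin n → ℚˣ)))) :=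
      rfl
    rw [← e6]
    exact_mod_cast min_le_min le_rfl (by omega)
  have hnc : ∀ (p : ℕ) [Fact p.Prime], ¬ CompactAt p L → ell ℚ_[p] L = m :=
    fun p hp hc => ell_padic_of_two hL ⟨g₁, g₂, hind, hg⟩ p hc
  refine ⟨s, hsm, hstr, fun p hp hcp => ⟨hcomp p hcp, topRank_eq_of_zpRank (hcomp p hcp)⟩, hnc, hreal,
    fun d hcom => ?_⟩
  have hds : d = s := hrank q d hcq (hcom q hcq)
  subst hds
  refine ⟨rfl, fun p hp => ?_, le_trans ?_ hreal⟩
  · by_cases hc : CompactAt p L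
    · exact (topRank_eq_of_zpRank (hcomp p hc)).ge
    · rw [hnc p hc]
      exact_mod_cast hsm
  · exact_mod_cast le_min hsm (by omega)

end Places

end Pool.Agent.Results.MP_f301bd_nt.TwoGenerators
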